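import Mathlib
import Pool.Agent.R930.Kern2Main

/-!
# Tate classes on the products of an abelian variety and arbitrary varieties over number fields

Let `A` be an abelian variety over a number field `k` (or over any finitely generated field, of any
characteristic), `ℓ` a prime number, `V = V_ℓ(A)` the rational Tate module with the action `ρ` of the
Galois group `Γ`, `b` a basis of the lattice `T_ℓ(A)`, `χ` the cyclotomic character and `ω` the Weil
pairing of a polarization; `K` is the algebraic closure of `ℚ_ℓ` and `X = K ⊗ V`. By theorems of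
Faltings (Zarhin, Mori in positive characteristic) `V` is semisimple, also over finite extensions of
`k`, and the endomorphisms of `V` which commute with the Galois group come from endomorphisms of `A`.
The Frobenius elements at the places of good reduction away from `ℓ` (`IsFrob`: the characteristic
polynomial has integral coefficients and roots of absolute value `p ^ (a / 2)`) are dense in `Γ`.

Let `Z` be any smooth projective variety over `k`, and let `W` be the cohomology group
`H ^ b(Z)(r)` with the action `τ` of `Γ`.  The Künneth component `H ^ a(A ^ n) ⊗ H ^ b(Z)(r)` of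
`H ^ 2r(A ^ n × Z)(r)`, `a + b = 2 r`, is the space of the alternating forms `f` in `a` variables on
`V ^ n` with values in `W`, and `f` is a Tate class over a finite extension of `k` if and only if
`f (ρ(s) v_1, ..., ρ(s) v_a) = τ(s) f(v_1, ..., v_a)` for all `s` in a subgroup of finite index
(`IsMixedClass`).

Suppose that every strongly irreducible subspace `U` of `X` is symplectic (the geometric simple factors
of `A` are of type I or II in the classification of Albert: real or indefinite quaternion
multiplication) and that for every `U` there is ONE place, which may depend on `U`, such that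
(`GoodPieces`)

* `A` has good reduction with at most three slopes `s`, `1 / 2`, `1 - s` such that for one embedding of
  the eigenvalues of the Frobenius element in the algebraic closure of `ℚ_p` the slope `s` is simple on
  `U`; or the reduction has two slopes and exactly one eigenvalue on `U` has prescribed slopes with
  respect to two embeddings; or
* the dimension of `U` is at most four, and `A` has good reduction with at most three slopes `s`,
  `1 / 2`, `1 - s` such that `s ≠ 1 / 2` occurs on `U`; or
* an element `γ` of the inertia group acts on `V` with `(γ - 1) ^ 2 = 0` and `γ - 1` has rank one or two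
  on `U` (semistable reduction of small toric rank).

There is no condition on the reductions at most places.  For instance, `A` may be any abelian variety
whose geometric simple factors have dimension one or two and are not of CM type, or any abelian
variety of type I or II for which for each `U` there is a place of toric rank one on `U`.

Suppose that the Galois action on `W` is potentially abelian, or, much more generally, that for every
piece `U` every subgroup of finite index contains an element which acts trivially on `W`, with `χ = 1`,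
and which acts nontrivially on `U`.  This holds if `Z` is an abelian variety with complex
multiplication, a product of Fermat varieties, or a K3 surface of Picard number twenty; or if for every
`U` there is a place (of residue characteristic different from `ℓ`) at which `Z` has potentially good
reduction and at which an inertia group acts on `U` through an infinite group; or if the Lie algebras of
the images of `Γ` in `GL(V)` and `GL(W)` have no common nonabelian quotient.

The theorem: all Tate classes in `H ^ 2m(A ^ n) ⊗ H ^ b(Z)(r)`, `2 m + b = 2 r`, are linear combinations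
of products of a Tate class of `Z`, in `H ^ 2(r-m)(Z)(r-m)`, and of `m` Tate classes of degree two on
`A ^ n`, which are classes of divisors; and there are no Tate classes in `H ^ a(A ^ n) ⊗ H ^ b(Z)(r)`
for odd `a`.  So the Tate conjecture for `Z` over all finite extensions of `k` implies the Tate conjecture
for all the varieties `A ^ n × Z`.

The proof.  Let `N` be the kernel of `Γ` on `W` and on `χ`, a normal subgroup of infinite index in
general, and let `𝔫` be the Lie algebra of the operators that kill all forms invariant under a subgroup of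
finite index of `N`.  It is contained in the Lie algebra `𝔤` of `Γ`, which contains all operators
`u ↦ ω(v, u) v` on `U` by the condition on the places.  Every element of `N` which acts nontrivially on
`U`, and is sufficiently close to one, gives an element of `𝔫` that is not zero on `U`
(`Pool/Agent/R930/Jordan.lean`), so `𝔫` contains the operators `u ↦ ω(v, u) v` on `U` as well. The
slope operators of Frobenius elements, and the operators `γ - 1`, normalize every space of operators which
is stable under `Γ`; with their help one obtains square-zero elements of `𝔫` of rank one on `U`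
(`Pool/Agent/R930/Kern2.lean`).  By Schur's lemma all operators that commute with a subgroup of finite
index of `N` commute with a subgroup of finite index of `Γ`, so that the forms on `X` invariant under a
subgroup of finite index of `N` are generated in degree two by Tate forms for `Γ`.  There is an operator
with the eigenvalues `1 / 2` and `- 1 / 2` which is skew for all these forms
(`Pool/Agent/R930/Split.lean`), and it excludes the classes of odd degree.
-/

namespace Pool.Agent.Results.MP_021685_ag.ProductsOverNumberFields

open Module TensorProduct Polynomial Pool.Agent.Y126.Notions Pool.Agent.R930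
  Pool.Agent.R930.Notions

noncomputable section

/-- All strongly irreducible subspaces are symplectic, and for each of them there is one Frobenius
element with three slopes, of which the outer ones are simple or the dimension is at most four, or with
two slopes and a simple pair of slopes, or one quadratic unipotent element of rank one or two. -/
def GoodPieces {K X Γ : Type} [Field K] [CharZero K] [AddCommGroup X] [Module K X] [Group Γ]
    (R : Representation K Γ X) (χ : Γ →* K) (F : Γ → ℕ → ℕ → ℤ[X] → Prop) : Prop :=
  ∀ U, StronglyIrreducible R U → IsSymplectic R χ U ∧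
    (SimpleSlope R F U ∨ (finrank K U ≤ 4 ∧ OuterSlope R F U) ∨
    ∃ γ : Γ, (R γ - 1) * (R γ - 1) = 0 ∧ (finrank K (U.map (R γ - 1)) = 1 ∨
      finrank K (U.map (R γ - 1)) = 2))

/-- A subgroup of finite index acts through an abelian group. -/
def PotentiallyAbelian {k W Γ : Type} [Field k] [AddCommGroup W] [Module k W] [Group Γ]
    (τ : Representation k Γ W) : Prop :=
  ∃ Δ : Subgroup Γ, Δ.FiniteIndex ∧ ∀ g ∈ Δ, ∀ h ∈ Δ, τ g * τ h = τ h * τ g

/-- For every strongly irreducible subspace `U` every subgroup of finite index contains an element that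
acts trivially on `W`, with `χ = 1`, and nontrivially on `U`. -/
def KernelActs {k K W X Γ : Type} [Field k] [AddCommGroup W] [Module k W] [Field K]
    [AddCommGroup X] [Module K X] [Group Γ] (R : Representation K Γ X) (χ : Γ →* K)
    (τ : Representation k Γ W) : Prop :=
  ∀ U, StronglyIrreducible R U → ∀ Δ : Subgroup Γ, Δ.FiniteIndex →
    ∃ g ∈ Δ, τ g = 1 ∧ χ g = 1 ∧ ∃ u ∈ U, R g u ≠ u

section classes

variable {k V W Γ : Type} [Field k] [AddCommGroup V] [Module k V] [AddCommGroup W] [Module k W]
  [Group Γ]

/-- A Tate class in a Künneth component: an alternating form on `V ^ n` with values in `W` which is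
equivariant for a subgroup of finite index. -/
def IsMixedClass (ρ : Representation k Γ V) (τ : Representation k Γ W) {n : ℕ} {ι : Type}
    (f : (Fin n → V) [⋀^ι]→ₗ[k] W) : Prop :=
  ∃ Δ : Subgroup Γ, Δ.FiniteIndex ∧ ∀ s ∈ Δ, ∀ v : ι → Fin n → V,
    f (fun l i => ρ s (v l i)) = τ s (f v)

/-- The Tate classes in the Künneth components of odd degree are zero, and the Tate classes in the
Künneth components of degree `2 m` are linear combinations of products of `m` Tate classes of degree two
on `A ^ n` and of a Tate class `w` of `Z`. -/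
def KuennethGenerated (ρ : Representation k Γ V) (χ : Γ →* k) (τ : Representation k Γ W) : Prop :=
  (∀ (n a : ℕ), Odd a → ∀ f : (Fin n → V) [⋀^Fin a]→ₗ[k] W, IsMixedClass ρ τ f → f = 0) ∧
  ∀ (n m : ℕ) (f : (Fin n → V) [⋀^Fin m × Fin 2]→ₗ[k] W), IsMixedClass ρ τ f →
    f ∈ Submodule.span k {g : (Fin n → V) [⋀^Fin m × Fin 2]→ₗ[k] W |
      ∃ B : Fin m → (Fin n → V) [⋀^Fin 2]→ₗ[k] k, (∀ l, IsTateClassTwo ρ χ (B l)) ∧
        ∃ w : W, (∃ Δ : Subgroup Γ, Δ.FiniteIndex ∧ ∀ s ∈ Δ, τ s w = χ s ^ m • w) ∧
        ∀ v, g v = (∑ σ : Equiv.Perm (Fin m × Fin 2), ((Equiv.Perm.sign σ : ℤ) : k) *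
          ∏ l, B l ![v (σ (l, 0)), v (σ (l, 1))]) • w}

end classes

open Pool.Agent.H204R3.SP Pool.Agent.H204R3.GP Pool.Agent.W522.U Pool.Agent.Y126.Toric

theorem result (ℓ : ℕ) [Fact ℓ.Prime] {V W Γ : Type} [AddCommGroup V] [Module ℚ_[ℓ] V]
    [FiniteDimensional ℚ_[ℓ] V] [AddCommGroup W] [Module ℚ_[ℓ] W] [FiniteDimensional ℚ_[ℓ] W]
    [Group Γ] [TopologicalSpace Γ] [IsTopologicalGroup Γ]
    (ρ : Representation ℚ_[ℓ] Γ V) (χ : Γ →* ℚ_[ℓ])
    (ω : V →ₗ[ℚ_[ℓ]] V →ₗ[ℚ_[ℓ]] ℚ_[ℓ]) (halt : ∀ v, ω v v = 0)
    (hnondeg : ∀ u, (∀ v, ω v u = 0) → u = 0)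
    (hω : ∀ s u v, ω (ρ s u) (ρ s v) = χ s * ω u v)
    (hsemisimple : PotentiallySemisimple ρ)
    {n : ℕ} (b : Basis (Fin n) ℚ_[ℓ] V)
    (hintegral : ∀ g i j, ‖LinearMap.toMatrix b b (ρ g) i j‖ ≤ 1)
    (hcontinuous : ∀ i j, Continuous fun g => LinearMap.toMatrix b b (ρ g) i j)
    (hfrobenius : Dense {γ | IsFrob ρ χ γ})
    (hpieces : GoodPieces (extend (AlgebraicClosure ℚ_[ℓ]) ρ)
      ((algebraMap ℚ_[ℓ] (AlgebraicClosure ℚ_[ℓ]) : ℚ_[ℓ] →* _).comp χ) (IsFrobenius ρ χ))
    (τ : Representation ℚ_[ℓ] Γ W)
    (hW : PotentiallyAbelian τ ∨ KernelActs (extend (AlgebraicClosure ℚ_[ℓ]) ρ)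
      ((algebraMap ℚ_[ℓ] (AlgebraicClosure ℚ_[ℓ]) : ℚ_[ℓ] →* _).comp χ) τ) :
    KuennethGenerated ρ χ τ := by
  have hpieces' : ∀ U, SI (bcr ρ (AlgebraicClosure ℚ_[ℓ])) U →
      Pool.Agent.W528.Tor.AltDual (bcr ρ (AlgebraicClosure ℚ_[ℓ]))
        (bcc χ (AlgebraicClosure ℚ_[ℓ])) U ∧ GoodSymp ρ χ U := by
    intro U hU
    obtain ⟨hs, h | ⟨h4, h⟩ | h⟩ := hpieces U hU
    · exact ⟨hs, Or.inl (hasSimple h)⟩
    · exact ⟨hs, Or.inr (Or.inl ⟨h4, hasSlope h⟩)⟩
    · exact ⟨hs, Or.inr (Or.inr h)⟩
  -- the condition on `W`
  have hker : ∀ U, SI (bcr ρ (AlgebraicClosure ℚ_[ℓ])) U → ∀ Δ : Subgroup Γ, Δ.FiniteIndex →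
      ∃ g ∈ Δ, g ∈ MonoidHom.ker τ ⊓ MonoidHom.ker χ ∧ χ g = 1 ∧
        ∃ u ∈ U, bcr ρ (AlgebraicClosure ℚ_[ℓ]) g u ≠ u := by
    intro U hU Δ hΔ
    rcases hW with ⟨Δ₀, hΔ₀, hab⟩ | h
    · obtain ⟨g, hg, h, hh, u, hu, hne⟩ := comm_acts hU (altDual_two_le (hpieces' U hU).1)
        (Δ ⊓ Δ₀) inferInstance
      refine ⟨g * h * g⁻¹ * h⁻¹, Δ.mul_mem (Δ.mul_mem (Δ.mul_mem hg.1 hh.1) (Δ.inv_mem hg.1))
        (Δ.inv_mem hh.1), ?_, comm_char χ g h, u, hu, hne⟩
      exact (mem_kk τ χ _).2 ⟨comm_kernel (hab g hg.2 h hh.2), comm_char χ g h⟩
    · obtain ⟨g, hg, h1, h2, h3⟩ := h U hU Δ hΔ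
      have h4 : χ g = 1 := (algebraMap ℚ_[ℓ] (AlgebraicClosure ℚ_[ℓ])).injective (by
        rw [map_one]; exact h2)
      exact ⟨g, hg, (mem_kk τ χ _).2 ⟨h1, h4⟩, h4, h3⟩
  -- the kernel
  obtain ⟨N, hNd⟩ : ∃ N : Subgroup Γ, N = MonoidHom.ker τ ⊓ MonoidHom.ker χ := ⟨_, rfl⟩
  have hNn : N.Normal := by rw [hNd]; infer_instance
  have hNk : ∀ g ∈ N, τ g = 1 ∧ χ g = 1 := fun g hg => (mem_kk τ χ g).1 (by rw [← hNd]; exact hg)
  rw [← hNd] at hker
  have hK := kern_pieces2 ω halt hnondeg hω hsemisimple hintegral hcontinuous hfrobenius hpieces'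
    N hNn hker
  refine ⟨fun n a ha f hf => ?_, fun n m f hf => ?_⟩
  · obtain ⟨x, hxx, hx⟩ := split_kern' ω halt hnondeg hω hsemisimple hK
    exact mixed_odd hxx hx hNk ha f hf
  · exact mixed_even (generated_kern (gen_kern (core_kern2' ω halt hnondeg hω hsemisimple hK)))
      (fun B hB => tate2_kern2 ω halt hnondeg hω hsemisimple hK hB) hNk f hf

end

end Pool.Agent.Results.MP_021685_ag.ProductsOverNumberFields
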