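import Mathlib
import Pool.Agent.TH115.GD.Defs
import Pool.Agent.R939.EI.Gen6
import Pool.Agent.R939.EI.Tw1
import Pool.Agent.R939.HI.Main

/-!
# The Tate conjecture at 2 for almost all elliptic surfaces with reducible fibres of given degrees

Let `k` be a number field, `k'` an algebraic closure, `K = k(t)`, `F = k'(t)`. Every elliptic curve
over `K` with a rational point of order two has an equation `E : y² = x (x² + a x + b)` with
polynomials `a`, `b`; the fibres of the elliptic surface over the zeros of `b` are reducible (of type
`I₂` if `a` is prime to `b` and `b` is squarefree). `TateAtTwo` says that all the classes in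
`V₂ Sel(E / F)` which are fixed by the Galois group of `k` come from `E(K)`: the Tate conjecture for
divisors at the prime 2 on the elliptic surface over the projective line with generic fibre `E`.

Fix `r ≥ 2` and `m₁, ..., m_s ≥ 1`, not all equal to 2. Let `a` of degree at most `r` and `b_i` of
degree at most `m_i` run through the polynomials whose coefficients are integers of `k` with
coordinates between `-H` and `H`, and let `b = b₁ ⋯ b_s`.

Theorem. For all `(a, b₁, ..., b_s)`, with the exception of a proportion which tends to zero if `H`
tends to infinity, the following holds: for all polynomials `D` such that `b` and `a² - 4 b` are not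
squares modulo any prime which divides `D`, for all `c ∈ k*` and for all polynomials `h` of odd degree
such that the prime divisors of `b (a² - 4 b) D` remain prime after `t ↦ h(t)`, the Tate conjecture at
2 holds for the base change by `h` of the quadratic twist `y² = x (x² + c a D x + c² b D²)`.

So for almost all surfaces one has the Tate conjecture for all twists by products of inert primes and
their base changes at the same time; there is no hypothesis on the members of the family.

Proof. Descent by 2-isogenies over `k(t)` (`Pool.Agent.R939.EI`) proves it for the `(a, b)` such that
the `b_i` and `a² - 4 b` are irreducible, `b` and `a² - 4 b` are not constants times norms from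
quadratic extensions of `k` and for each nonempty proper set `S` of the indices there is a prime ideal
`P` modulo which `a² - 4 b` has two simple roots at which the product of the `b_i`, `i ∈ S`, takes
values whose product is not a square. The last condition holds for almost all members by the large
sieve. For the other conditions Hilbert irreducibility is proved in the following form
(`Pool.Agent.R939.HI.Trans`, `Pool.Agent.R939.HI.Trans2`, by the density transfer of
`Pool.Agent.W275.UB`): a system with coefficients in the parameters which has no solution over
extensions of degree at most `N` of local fields for parameters near one point is without solutions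
over extensions of degree at most `N` of `k` for almost all parameters. The local statements are
computations with Newton polygons: no roots in extensions of small degree, and no factors of half the
degree over quadratic extensions (`Pool.Agent.R939.HI.Newt`).
-/

namespace Pool.Agent.Results.MP_021685_ag.AlmostAllSurfaces

open Polynomial NumberField Pool.Agent.TH115.GD Pool.Agent.R939.EI Pool.Agent.R939.HI

theorem result {k k' K F : Type} [Field k] [NumberField k] [Field k'] [Algebra k k'] [Field K]
    [Algebra k[X] K] [Field F] [Algebra k'[X] F] [IsFractionRing k'[X] F] [Algebra K F]
    (hT : IsTower k k' K F) {J : Type} [Fintype J] (B : Module.Basis J ℤ (𝓞 k)) {r s : ℕ}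
    (m : Fin s → ℕ) (hr : 2 ≤ r) (hm : ∀ i, 1 ≤ m i) (h2 : ∃ i, m i ≠ 2) {η : ℝ} (hη : 0 < η) :
    ∃ H0 : ℕ, ∀ H : ℕ, H0 ≤ H →
      (({x : (Fin (r + 1) → 𝓞 k) × ((i : Fin s) → Fin (m i + 1) → 𝓞 k) |
        ((∀ j t, |B.repr (x.1 j) t| ≤ (H : ℤ)) ∧ ∀ i j t, |B.repr (x.2 i j) t| ≤ (H : ℤ)) ∧
        ¬ ∀ D : k[X], InertIn (polA fun j => algebraMap (𝓞 k) k (x.1 j))
            (polP fun i j => algebraMap (𝓞 k) k (x.2 i j)) D →
          TateTD k' K F (polA fun j => algebraMap (𝓞 k) k (x.1 j))
            (polP fun i j => algebraMap (𝓞 k) k (x.2 i j)) D}.ncard : ℕ) : ℝ) ≤
        η * (2 * H + 1) ^ (Fintype.card J * (r + 1 + ∑ i, (m i + 1))) :=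
  almost_allI hT B hr hm h2 hη

end Pool.Agent.Results.MP_021685_ag.AlmostAllSurfaces
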