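import Pool.Agent.R390.CY.State

/-!
# Powers and sums of motives of Calabi-Yau type over `ℚ`

Let `V i = k ^ (2 |B i|)` be finitely many polarized pure motives over `ℚ` (the realizations, with
coefficients in the algebraically closed ultrametric extension `k` of `ℚ_ℓ`), of the same odd weight `w`,
of rank two or four, with distinct Hodge numbers: `h^{r,w-r} = 1` for `r` or `w - r` in `B i`, where `B i`
consists of one or two numbers less than `w / 2` (for example Calabi-Yau threefolds over `ℚ` with
`h^{2,1} = 1`).

Let `q ≠ ℓ` be a prime number with the following properties: the Frobenius polynomials `P i` at `q` are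
relation free, and if `B i = {a < b}` then `P i` is irreducible over `ℚ` and the trace of the Frobenius
at `q` is not divisible by `q ^ b`.  And suppose that for all quadratic characters unramified outside
`S` there is a Frobenius element where the character is `-1` and the trace on `V i` is not zero.

If `ℓ ≥ 5` then all `V i` remain absolutely irreducible over all number fields, the sum is semisimple
over all number fields, and all homomorphisms between the tensor powers of the sum (with Tate twists)
over all number fields are linear combinations of products of the polarizations of the summands.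

For `ℓ ≥ 5` the condition `DivisibleAt` is known (the Fontaine-Mazur conjecture for `GL₂` over `ℚ`), and
if `V i` is crystalline at `ℓ` then `NoRamifiedTwist` holds.
-/

set_option autoImplicit false

namespace Pool.Agent.Results.MP_021685_ag.CalabiYauAllPrimes

open Module Polynomial NumberField Pool.Agent.Y800 Pool.Agent.R390.SF Pool.Agent.R390.CY
  Pool.Agent.Y114.TF Pool.Agent.H204R3.GP

theorem result {F : SubFld ℚ} [FiniteDimensional ℚ F] (hF : finrank ℚ F = 1) {ℓ w : ℕ} [Fact ℓ.Prime]
    {k : Type} [NormedField k] [NormedAlgebra ℚ_[ℓ] k] [IsUltrametricDist k] [IsAlgClosed k]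
    {ι : Type} [Fintype ι] [DecidableEq ι] {B : ι → Finset ℕ} (hw : Odd w) (hB : ∀ i, IsType w (B i))
    (A : ∀ i, CYRep F ℓ w k (B i)) {q : ℕ} (hq : q.Prime) (hqℓ : ℓ ≠ q) (P : ι → ℤ[X])
    (hP : ∀ i, GoodAt (A i) q (P i)) (hfree : RelationFree ℂ P (q ^ w))
    (hdiv : ∀ i, DivisibleAt (A i) q) (hT : ∀ i, NoTwist (A i)) :
    (∀ i, PotIrreducible (repOf (A i))) ∧ FiniteIndexSemisimple (sumRep fun i => repOf (A i)) ∧
    HomsGeneratedByPolarizations (fun i => repOf (A i)) (chiW F ℓ w k) (fun i => formOf (A i)) :=
  main' hF hw hB A hq hqℓ P hP hfree hdiv hT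

end Pool.Agent.Results.MP_021685_ag.CalabiYauAllPrimes
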