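import Mathlib
import Pool.Agent.Y126.Glue
import Pool.Agent.R930.Three
import Pool.Agent.R930.Notions

/-!
# Tate classes on all powers of an abelian variety: one place with few slopes for each geometric piece

Let `A` be an abelian variety over a number field `k` (or over any finitely generated field, of any
characteristic), `ℓ` a prime number, `V = V_ℓ(A)` the rational Tate module with the action `ρ` of the
Galois group `Γ`, `b` a basis of the lattice `T_ℓ(A)`, `χ` the cyclotomic character and `ω` the Weil
pairing of a polarization; `K` is the algebraic closure of `ℚ_ℓ` and `X = K ⊗ V`. By theorems of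
Faltings (Zarhin, Mori in positive characteristic) `V` is semisimple, also over finite extensions of
`k`, and the endomorphisms of `V` which commute with the Galois group come from endomorphisms of `A`.
The Frobenius elements at the places of good reduction away from `ℓ` (`IsFrob`: the characteristic
polynomial has integral coefficients and roots of absolute value `p ^ (a / 2)`) are dense in `Γ`.
There is NO condition on the reductions at most places, and none from Hodge theory.

Suppose that for every strongly irreducible subspace `U` of `X` of dimension at least two there is ONE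
good place (which may depend on `U`) with Frobenius element `γ` such that (`IsGoodPiece`)

* the reduction of `A` at this place has two slopes (for instance, it is ordinary), and for one
  embedding of the eigenvalues of `γ` in the algebraic closure of `ℚ_p` the multiplicity of one slope
  on `U` is prime to the dimension of `U`; or
* `U` is symplectic (this is so for all `U` if `A` has real or quaternion multiplication of type I or
  II), and the reduction has at most three slopes `s`, `1 / 2`, `1 - s` such that for one embedding `s`
  is simple on `U` (abelian varieties of K3 type); or the reduction has two slopes and exactly one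
  eigenvalue on `U` has prescribed slopes with respect to two embeddings; or
* `U` is symplectic of dimension at most four, the reduction has at most three slopes `s`, `1 / 2`,
  `1 - s`, and `s ≠ 1 / 2` occurs on `U`; or
* `U` is symplectic, and there is an element `γ` of the group with `(γ - 1) ^ 2 = 0` such that
  `γ - 1` has rank two on `U` (a place of semistable reduction), or `U` is arbitrary and this rank is
  one.

Moreover suppose that there are no self-dual lines (`A` has no supersingular factors) and that, if `U`
is not self-dual, the twists of `U` which occur in `X` are isomorphic to `U`, or that both slopes occur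
on `U` for all embeddings and for a dense set of Frobenius elements with two slopes.

Then all Tate classes on all powers of `A` are linear combinations of products of Tate classes of
degree two (divisor classes by the theorems above) and of Weil classes; and of products of Tate
classes of degree two only if there are no Weil families, for instance if all `U` are self-dual.

Examples: all products of powers of abelian varieties whose geometric simple factors are elliptic
curves and abelian surfaces, not supersingular, over finitely generated fields of any characteristic
(all `U` with dimension at least two are symplectic of dimension two or four; there are three slopes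
`0`, `1 / 2`, `1` at the good places), together with all abelian varieties with real multiplication
with a place of K3 type or of toric rank one on each piece.

The proof.  Additive functions on the group generated by the eigenvalues of a Frobenius element,
obtained from `p`-adic absolute values, give elements of the Lie algebra `𝔤`. An operator which
commutes with `𝔤` commutes with all Frobenius elements which are congruent to one modulo `ℓ ^ 2`: an
eigenvalue quotient all of whose absolute values are one is a root of unity (Kronecker), and such a
quotient is one. So `𝔤` generates the commutant of the commutant of a subgroup of finite index, and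
acts irreducibly on every `U`. An element `x` of `𝔤` with the eigenvalues `1 / 2`, `0`, `- 1 / 2` on `U`
gives a grading of `𝔤`; if the eigenvalue `1 / 2` is simple, the part of degree one does not vanish
since a product of two commuting skew operators is symmetric. If there are only two eigenvalues, with
coprime multiplicities, the trace form and the Casimir element show that the minimal rank of an
element of degree one is one.
-/

namespace Pool.Agent.Results.MP_021685_ag.OnePlaceForEachPiece

open Module TensorProduct Polynomial Pool.Agent.Y126.Notions Pool.Agent.R930
  Pool.Agent.R930.Notions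

noncomputable section

/-- The good pieces, see the description above. -/
def IsGoodPiece {K X Γ : Type} [Field K] [CharZero K] [AddCommGroup X] [Module K X] [Group Γ]
    (R : Representation K Γ X) (χ : Γ →* K) (F : Γ → ℕ → ℕ → ℤ[X] → Prop) (U : Submodule K X) :
    Prop :=
  CoprimeSlopes R F U ∨
  (IsSymplectic R χ U ∧ (SimpleSlope R F U ∨ (finrank K U ≤ 4 ∧ OuterSlope R F U))) ∨
  ∃ γ : Γ, (R γ - 1) * (R γ - 1) = 0 ∧ (finrank K (U.map (R γ - 1)) = 1 ∨
    (finrank K (U.map (R γ - 1)) = 2 ∧ IsSymplectic R χ U))

/-- All strongly irreducible subspaces of dimension at least two are good pieces, and those of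
dimension one are not self-dual; and if a strongly irreducible subspace `U` of dimension at least two
is not self-dual, then for a dense set of Frobenius elements with two slopes both slopes occur on `U`
for all embeddings, or the twists of `U` which occur as subspaces are isomorphic to `U`. -/
def OnlyGoodPieces {K X Γ : Type} [Field K] [CharZero K] [AddCommGroup X] [Module K X] [Group Γ]
    [TopologicalSpace Γ] (R : Representation K Γ X) (χ : Γ →* K)
    (F : Γ → ℕ → ℕ → ℤ[X] → Prop) : Prop :=
  (∀ U, StronglyIrreducible R U → finrank K U = 1 → ¬AreDual R χ U U) ∧
  ∀ U, StronglyIrreducible R U → 2 ≤ finrank K U → IsGoodPiece R χ F U ∧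
    (¬AreDual R χ U U → Dense {γ | BothSlopes R F U γ} ∨ TwistsTrivial R U)

open Pool.Agent.H204R3.SP Pool.Agent.H204R3.GP Pool.Agent.W522.U

theorem result (ℓ : ℕ) [Fact ℓ.Prime] {V Γ : Type} [AddCommGroup V] [Module ℚ_[ℓ] V]
    [FiniteDimensional ℚ_[ℓ] V] [Group Γ] [TopologicalSpace Γ] [IsTopologicalGroup Γ]
    (ρ : Representation ℚ_[ℓ] Γ V) (χ : Γ →* ℚ_[ℓ])
    (ω : V →ₗ[ℚ_[ℓ]] V →ₗ[ℚ_[ℓ]] ℚ_[ℓ]) (halt : ∀ v, ω v v = 0)
    (hnondeg : ∀ u, (∀ v, ω v u = 0) → u = 0)
    (hω : ∀ s u v, ω (ρ s u) (ρ s v) = χ s * ω u v)
    (hsemisimple : PotentiallySemisimple ρ)
    {n : ℕ} (b : Basis (Fin n) ℚ_[ℓ] V)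
    (hintegral : ∀ g i j, ‖LinearMap.toMatrix b b (ρ g) i j‖ ≤ 1)
    (hcontinuous : ∀ i j, Continuous fun g => LinearMap.toMatrix b b (ρ g) i j)
    (hfrobenius : Dense {γ | IsFrob ρ χ γ})
    (hpieces : OnlyGoodPieces (extend (AlgebraicClosure ℚ_[ℓ]) ρ)
      ((algebraMap ℚ_[ℓ] (AlgebraicClosure ℚ_[ℓ]) : ℚ_[ℓ] →* _).comp χ) (IsFrobenius ρ χ)) :
    GeneratedByWeilClasses (AlgebraicClosure ℚ_[ℓ]) ρ χ ω ∧
    (NoWeilFamilies (extend (AlgebraicClosure ℚ_[ℓ]) ρ)
      ((algebraMap ℚ_[ℓ] (AlgebraicClosure ℚ_[ℓ]) : ℚ_[ℓ] →* _).comp χ) →
      GeneratedInDegreeTwo ρ χ) := by
  have hl1 : ∀ u, (∀ v, bcb (AlgebraicClosure ℚ_[ℓ]) ω u v = 0) → u = 0 := fun u hu =>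
    bcb_nondeg_left ω hnondeg (left_nondeg ω halt hnondeg) u hu
  have hinv := bcb_inv (Ω := AlgebraicClosure ℚ_[ℓ]) ρ χ ω hω
  have hpr : HasProj (bcr ρ (AlgebraicClosure ℚ_[ℓ])) := hasProj_bcr ρ _ hsemisimple
  have hlie := lieGenerate_of_dense hintegral hcontinuous hfrobenius
  refine Pool.Agent.Y126.Glue.conclusion ℓ ρ χ ω halt hnondeg hω hsemisimple ?_ hpieces.1 ?_
  · intro U hU h2
    rcases (hpieces.2 U hU h2).1 with hcop | ⟨hs, h | ⟨h4, h⟩⟩ | ⟨γ, hγ, h | ⟨h, hs⟩⟩
    · exact one_of_slopes (bcb _ ω) hl1 hinv hpr hlie hU h2 (hasCoprime hcop)
    · exact one_of_simple (bcb _ ω) hl1 hinv hpr hlie hU hs (hasSimple h)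
    · exact one_of_four (bcb _ ω) hl1 hinv hpr hlie hU hs h4 (hasSlope h)
    · exact Pool.Agent.Y126.Toric.one_of_gcd (bcb _ ω) hl1 hinv hpr hU hγ
        fun p hp => ⟨1, Or.inl h.symm, hp.one_lt.ne' ∘ Nat.dvd_one.1⟩
    · exact Pool.Agent.Y126.Toric.one_of_alt (bcb _ ω) hl1 hinv hpr hU hs hγ (Or.inl h.symm)
        (Or.inl rfl)
  · intro U U' hU hU' h2 hd ψ hψ
    rcases (hpieces.2 U hU h2).2 hd with h | h
    · exact twist_trivial hintegral hcontinuous hU h hψ
    · exact h U' hU' ψ hψ

end

end Pool.Agent.Results.MP_021685_ag.OnePlaceForEachPiece
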